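import Pool.Agent.LibDC76.Defs

set_option autoImplicit false

namespace Pool.Agent.LibTE76

open Module Polynomial Pool.Agent.LibDC76

section Linear

variable {K V : Type} [Field K] [AddCommGroup V] [Module K V]

/-- An endomorphism commuting with `F` is a polynomial in `F` if `F` has a cyclic vector. -/
theorem mem_adjoin_of_cyclic (F t : End K V) (v : V)
    (hv : Submodule.span K (Set.range fun i : ℕ => (F ^ i) v) = ⊤) (h : t * F = F * t) :
    ∃ p : K[X], t = aeval F p := by
  have hsurj : ∀ w : V, ∃ p : K[X], aeval F p v = w := by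
    let L : K[X] →ₗ[K] V := (LinearMap.applyₗ v).comp (aeval F).toLinearMap
    have hL : LinearMap.range L = ⊤ := by
      rw [eq_top_iff, ← hv, Submodule.span_le]
      rintro _ ⟨i, rfl⟩
      exact ⟨X ^ i, by simp [L]⟩
    intro w
    have : w ∈ LinearMap.range L := hL ▸ Submodule.mem_top
    exact this
  obtain ⟨p, hp⟩ := hsurj (t v)
  refine ⟨p, LinearMap.ext fun w => ?_⟩
  obtain ⟨r, rfl⟩ := hsurj w
  have hc : Commute t (aeval F r) := by
    have h1 : Commute t F := h
    rw [aeval_eq_sum_range]
    exact Commute.sum_right _ _ _ fun i _ => (h1.pow_right i).smul_right _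
  have h2 : t (aeval F r v) = aeval F r (t v) := LinearMap.congr_fun hc.eq v
  have h3 : aeval F r (aeval F p v) = aeval F p (aeval F r v) := by
    have : (aeval F r * aeval F p : End K V) = aeval F p * aeval F r := by
      rw [← map_mul, ← map_mul, mul_comm]
    exact LinearMap.congr_fun this v
  rw [h2, ← hp, h3]

theorem span_fin [FiniteDimensional K V] (F : End K V) (v : V)
    (hv : Submodule.span K (Set.range fun i : ℕ => (F ^ i) v) = ⊤) :
    Submodule.span K (Set.range fun i : Fin (finrank K V) => (F ^ (i : ℕ)) v) = ⊤ := by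
  rw [eq_top_iff, ← hv, Submodule.span_le]
  rintro _ ⟨k, rfl⟩
  have hmonic := LinearMap.charpoly_monic F
  have h1 : (aeval F (X ^ k %ₘ F.charpoly)) v = (F ^ k) v := by
    have h2 : aeval F (X ^ k : K[X]) = aeval F (X ^ k %ₘ F.charpoly) := by
      conv_lhs => rw [← modByMonic_add_div (X ^ k : K[X]) F.charpoly]
      rw [map_add, map_mul, LinearMap.aeval_self_charpoly, zero_mul, add_zero]
    rw [← h2, map_pow, aeval_X]
  change (F ^ k) v ∈ Submodule.span K (Set.range fun i : Fin (finrank K V) => (F ^ (i : ℕ)) v)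
  rw [← h1, aeval_eq_sum_range]
  rw [LinearMap.sum_apply]
  refine Submodule.sum_mem _ fun i hi => ?_
  rw [LinearMap.smul_apply]
  by_cases hc : (X ^ k %ₘ F.charpoly).coeff i = 0
  · rw [hc, zero_smul]; exact Submodule.zero_mem _
  refine Submodule.smul_mem _ _ (Submodule.subset_span ?_)
  have hlt : i < finrank K V := by
    rw [← LinearMap.charpoly_natDegree F]
    have h3 := le_natDegree_of_ne_zero hc
    have h4 : (X ^ k %ₘ F.charpoly).degree < F.charpoly.degree := degree_modByMonic_lt _ hmonic
    have h5 : X ^ k %ₘ F.charpoly ≠ 0 := by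
      intro h; rw [h] at hc; simp at hc
    exact lt_of_le_of_lt h3 (natDegree_lt_natDegree h5 h4)
  exact ⟨⟨i, hlt⟩, rfl⟩

end Linear

/-- GENERAL: Tate endomorphisms become algebraic at the places whose Frobenius is close to an element with a cyclic
vector. -/
theorem near_endo {K V G S : Type} [Field K] [TopologicalSpace K] [IsTopologicalRing K]
    [T1Space K] [AddCommGroup V] [Module K V] [FiniteDimensional K V] [Group G] [TopologicalSpace G]
    [IsTopologicalGroup G] (R : Reductions K V G S) (N : Subgroup G) (hN : IsOpen (N : Set G))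
    (t : End K V) (ht : ∀ h ∈ N, t * R.ρ h = R.ρ h * t) (g : G) (hg : g ∈ N) (v : V)
    (hv : Submodule.span K (Set.range fun i : ℕ => (R.ρ g ^ i) v) = ⊤) :
    ∃ O : Set G, IsOpen O ∧ g ∈ O ∧ (∃ s, R.frob s ∈ O) ∧ ∀ s, R.frob s ∈ O → t ∈ R.corr s := by
  classical
  set r := finrank K V with hr
  let b : Basis (Fin r) K V := finBasis K V
  let M : G → Matrix (Fin r) (Fin r) K := fun h => Matrix.of fun i j => b.repr (R.ρ (h ^ (i : ℕ)) v) j
  have hM : Continuous fun h => (M h).det := by
    refine Continuous.matrix_det ?_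
    refine continuous_pi fun i => continuous_pi fun j => ?_
    exact (R.cont (b.coord j) v).comp (continuous_pow (i : ℕ))
  have key : ∀ h, (M h).det ≠ 0 → Submodule.span K (Set.range fun i : ℕ => (R.ρ h ^ i) v) = ⊤ := by
    intro h hdet
    have hli : LinearIndependent K fun i : Fin r => (R.ρ h ^ (i : ℕ)) v := by
      have h1 : IsUnit (M h) := (Matrix.isUnit_iff_isUnit_det _).2 (isUnit_iff_ne_zero.2 hdet)
      have h2 := Matrix.linearIndependent_rows_iff_isUnit.2 h1
      have h3 : LinearIndependent K fun i : Fin r => b.equivFun ((R.ρ h ^ (i : ℕ)) v) := by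
        convert h2 using 2 with i
        simp only [M, Matrix.row, map_pow]
        rfl
      exact LinearIndependent.of_comp b.equivFun.toLinearMap h3
    have h4 := hli.span_eq_top_of_card_eq_finrank' (by simp [hr])
    rw [eq_top_iff, ← h4]
    refine Submodule.span_mono ?_
    rintro _ ⟨i, rfl⟩
    exact ⟨i, rfl⟩
  have hgdet : (M g).det ≠ 0 := by
    have h1 := span_fin (R.ρ g) v hv
    have hli : LinearIndependent K fun i : Fin r => (R.ρ g ^ (i : ℕ)) v :=
      linearIndependent_of_top_le_span_of_card_eq_finrank h1.ge (by simp [hr])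
    have h3 : LinearIndependent K fun i : Fin r => b.equivFun ((R.ρ g ^ (i : ℕ)) v) :=
      hli.map' b.equivFun.toLinearMap (LinearEquiv.ker _)
    have h2 : LinearIndependent K (M g).row := by
      convert h3 using 2 with i
      simp only [M, Matrix.row, map_pow]
      rfl
    have h4 := Matrix.linearIndependent_rows_iff_isUnit.1 h2
    exact ((Matrix.isUnit_iff_isUnit_det _).1 h4).ne_zero
  have hO : IsOpen ({h | (M h).det ≠ 0} ∩ (N : Set G)) :=
    (isOpen_compl_singleton.preimage hM).inter hN
  refine ⟨_, hO, ⟨hgdet, hg⟩, ?_, ?_⟩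
  · obtain ⟨x, hx, s, rfl⟩ := R.dense.inter_open_nonempty _ hO ⟨g, hgdet, hg⟩
    exact ⟨s, hx⟩
  · rintro s ⟨hs1, hs2⟩
    obtain ⟨p, hp⟩ := mem_adjoin_of_cyclic (R.ρ (R.frob s)) t v (key _ hs1) (ht _ hs2)
    rw [hp]
    exact Algebra.adjoin_le (Set.singleton_subset_iff.2 (R.graph s))
      (aeval_mem_adjoin_singleton K (R.ρ (R.frob s)))

end Pool.Agent.LibTE76
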