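import Pool.Agent.LibDw64.D
import Pool.Agent.LibDw64.Q

set_option autoImplicit false

namespace Pool.Agent.LibTE76

open Module Polynomial Pool.Agent.LibDw64

/-- A matrix commuting with a complex matrix with simple spectrum is a polynomial in it. -/
theorem exists_aeval_of_nodup {n : ℕ} (A C : Matrix (Fin n) (Fin n) ℂ) (hA : A.charpoly.roots.Nodup)
    (hC : C * A = A * C) : ∃ P : ℂ[X], C = aeval A P := by
  classical
  set f : End ℂ (Fin n → ℂ) := Matrix.toLin' A with hf
  set g : End ℂ (Fin n → ℂ) := Matrix.toLin' C with hg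
  have hfg : g * f = f * g := by
    rw [hf, hg, Module.End.mul_eq_comp, Module.End.mul_eq_comp, ← Matrix.toLin'_mul, ← Matrix.toLin'_mul, hC]
  set T := A.charpoly.roots.toFinset with hT
  have hcardT : Fintype.card T = n := by
    rw [Fintype.card_coe, hT, Multiset.toFinset_card_of_nodup hA]
    have h1 : A.charpoly.Splits := IsAlgClosed.splits _
    rw [← h1.natDegree_eq_card_roots, Matrix.charpoly_natDegree_eq_dim, Fintype.card_fin]
  have hev : ∀ μ : T, ∃ v : Fin n → ℂ, f.HasEigenvector (μ : ℂ) v := by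
    intro μ
    have h1 : (μ : ℂ) ∈ A.charpoly.roots := Multiset.mem_toFinset.1 μ.2
    have h2 : A.charpoly.IsRoot μ := (mem_roots'.1 h1).2
    have h3 : f.HasEigenvalue (μ : ℂ) := by
      rw [Module.End.hasEigenvalue_iff_isRoot_charpoly, hf, Matrix.charpoly_toLin']
      exact h2
    exact h3.exists_hasEigenvector
  choose v hv using hev
  have hli : LinearIndependent ℂ v :=
    Module.End.eigenvectors_linearIndependent' f (fun μ : T => (μ : ℂ)) Subtype.val_injective v hv
  have hspan : Submodule.span ℂ (Set.range v) = ⊤ :=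
    hli.span_eq_top_of_card_eq_finrank' (by rw [hcardT]; simp)
  let b : Basis T ℂ (Fin n → ℂ) := Basis.mk hli hspan.ge
  have hb : ∀ μ, b μ = v μ := fun μ => by simp [b]
  have hfb : ∀ μ : T, f (b μ) = (μ : ℂ) • b μ := fun μ => by rw [hb]; exact (hv μ).apply_eq_smul
  -- `g` is diagonal
  have hgb : ∀ μ : T, g (b μ) = (b.repr (g (b μ)) μ) • b μ := by
    intro μ
    have h1 : f (g (b μ)) = (μ : ℂ) • g (b μ) := by
      have := LinearMap.congr_fun hfg (b μ)
      simp only [Module.End.mul_apply] at this
      rw [← this, hfb, map_smul]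
    have h2 : ∀ ν : T, ν ≠ μ → b.repr (g (b μ)) ν = 0 := by
      intro ν hν
      have h3 : b.repr (f (g (b μ))) ν = (ν : ℂ) * b.repr (g (b μ)) ν := by
        conv_lhs => rw [← b.sum_repr (g (b μ))]
        rw [map_sum, map_sum, Finset.sum_apply']
        simp only [map_smul, hfb, Basis.repr_self, Finsupp.smul_apply, smul_eq_mul, Finsupp.single_apply]
        rw [Finset.sum_eq_single ν]
        · simp [mul_comm]
        · intro κ _ hκ
          simp [hκ]
        · simp
      rw [h1, map_smul, Finsupp.smul_apply, smul_eq_mul] at h3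
      have h4 : ((μ : ℂ) - ν) * b.repr (g (b μ)) ν = 0 := by linear_combination h3
      rcases mul_eq_zero.1 h4 with h | h
      · exact absurd (Subtype.ext (sub_eq_zero.1 h)).symm hν
      · exact h
    conv_lhs => rw [← b.sum_repr (g (b μ))]
    rw [Finset.sum_eq_single μ]
    · intro ν _ hν
      rw [h2 ν hν, zero_smul]
    · simp
  let P : ℂ[X] := Lagrange.interpolate Finset.univ (fun μ : T => (μ : ℂ)) fun μ => b.repr (g (b μ)) μ
  have hP : ∀ μ : T, P.eval (μ : ℂ) = b.repr (g (b μ)) μ := fun μ =>
    Lagrange.eval_interpolate_at_node _ (Subtype.val_injective.injOn) (Finset.mem_univ μ)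
  have hgP : g = aeval f P := by
    refine b.ext fun μ => ?_
    rw [hgb, (Module.End.aeval_apply_of_hasEigenvector (by rw [hb]; exact hv μ : f.HasEigenvector (μ : ℂ) (b μ))),
      hP]
  refine ⟨P, ?_⟩
  apply Matrix.toLin'.injective
  rw [← hg, hgP, hf]
  have h5 := Polynomial.aeval_algHom_apply (Matrix.toLinAlgEquiv' (R := ℂ) (n := Fin n)).toAlgHom A P
  exact h5

end Pool.Agent.LibTE76
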