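import Pool.Agent.LibTE76.B

set_option autoImplicit false

namespace Pool.Agent.LibTE76

open Module Polynomial Pool.Agent.LibDw64

/-- The primes `p ≠ n` of good reduction of the member `s` of the Dwork pencil of degree `n`. -/
def Good (n : ℕ) (s : ℚ) (p : ℕ) : Prop :=
  p.Prime ∧ p ≠ n ∧ ¬ p ∣ s.den ∧ ¬ (p : ℤ) ∣ s.num ^ n - (n : ℤ) ^ n * (s.den : ℤ) ^ n

theorem aeval_of_finite (F : Type) [Field F] [Finite F] (n : ℕ) (hn : n.Prime) (hn2 : n ≠ 2) (s : F)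
    (hs : s ^ n ≠ (n : F) ^ n) (ho : orderOf (Nat.card F : ZMod n) = n - 1)
    (Φ C : Matrix (Fin (n - 1)) (Fin (n - 1)) ℂ) (hΦ : IsFrobN F n s Φ) (hC : C * Φ = Φ * C) :
    ∃ P : ℂ[X], C = aeval Φ P := by
  haveI : Fact n.Prime := ⟨hn⟩
  have hodd : Odd n := hn.odd_of_ne_two hn2
  have hnF : (n : F) ≠ 0 := by
    intro h0
    obtain ⟨p, hp⟩ := CharP.exists F
    have := Fintype.ofFinite F
    obtain ⟨f, hpp, hf⟩ := FiniteField.card F p
    have h2 : n = p := ((Nat.prime_dvd_prime_iff_eq hpp hn).1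
      ((CharP.cast_eq_zero_iff F p n).1 h0)).symm
    have h3 : (Nat.card F : ZMod n) = 0 := by
      rw [Nat.card_eq_fintype_card, hf, ← h2]
      push_cast
      rw [CharP.cast_eq_zero, zero_pow f.pos.ne']
    rw [h3, orderOf_zero] at ho
    have := hn.two_le
    omega
  exact exists_aeval_of_nodup Φ C (nodup_of_primitive hn2 hnF hs (hΦ.isFrob hodd) ho) hC

theorem good_ne {n : ℕ} {s : ℚ} {p : ℕ} [Fact p.Prime] (hp : Good n s p) :
    ((s.num : ZMod p) / (s.den : ZMod p)) ^ n ≠ ((n : ℕ) : ZMod p) ^ n := by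
  intro h
  obtain ⟨_, _, h1, h2⟩ := hp
  have h3 : (s.den : ZMod p) ≠ 0 := by
    rwa [Ne, ZMod.natCast_eq_zero_iff]
  rw [div_pow, div_eq_iff (pow_ne_zero _ h3)] at h
  apply h2
  have h4 : ((s.num ^ n - (n : ℤ) ^ n * (s.den : ℤ) ^ n : ℤ) : ZMod p) = 0 := by
    push_cast
    rw [h, sub_self]
  exact (ZMod.intCast_zmod_eq_zero_iff_dvd _ p).1 h4

theorem infinite_good (n : ℕ) (hn : n.Prime) (M : ℕ) (hM : ¬ n ∣ M) (s : ℚ)
    (hs : s ^ n ≠ (n : ℚ) ^ n) :
    {p : ℕ | Good n s p ∧ p ≡ 1 [MOD M] ∧ orderOf (p : ZMod n) = n - 1}.Infinite := by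
  haveI : Fact n.Prime := ⟨hn⟩
  have hM0 : M ≠ 0 := by rintro rfl; exact hM (dvd_zero n)
  have hcop : n.Coprime M := (Nat.Prime.coprime_iff_not_dvd hn).2 hM
  -- a primitive root
  obtain ⟨g, hg⟩ := IsCyclic.exists_generator (α := (ZMod n)ˣ)
  have hgo : orderOf (g : ZMod n) = n - 1 := by
    rw [orderOf_units, orderOf_eq_card_of_forall_mem_zpowers hg, Nat.card_eq_fintype_card,
      ZMod.card_units]
  obtain ⟨a, ha1, ha2⟩ := Nat.chineseRemainder hcop (g : ZMod n).val 1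
  have hacop : a.Coprime (n * M) := by
    refine Nat.Coprime.mul_right ?_ ?_
    · have h1 : IsUnit ((a : ℕ) : ZMod n) := by
        have : ((a : ℕ) : ZMod n) = g := by
          have := (ZMod.natCast_eq_natCast_iff _ _ n).2 ha1
          rw [this, ZMod.natCast_zmod_val]
        rw [this]; exact g.isUnit
      exact (ZMod.isUnit_iff_coprime _ _).1 h1
    · have h1 : Nat.gcd a M = Nat.gcd 1 M := ha2.gcd_eq
      rw [Nat.Coprime, h1, Nat.gcd_one_left]
  have hinf := Nat.infinite_setOfPred_prime_and_modEq (mul_ne_zero hn.ne_zero hM0) hacop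
  -- the excluded finite set
  set D : ℤ := s.num ^ n - (n : ℤ) ^ n * (s.den : ℤ) ^ n with hD
  have hD0 : D ≠ 0 := by
    intro h
    apply hs
    have h1 : (s.num : ℚ) ^ n = (n : ℚ) ^ n * (s.den : ℚ) ^ n := by
      have h2 : ((s.num ^ n - (n : ℤ) ^ n * (s.den : ℤ) ^ n : ℤ) : ℚ) = 0 := by rw [← hD, h]; simp
      push_cast at h2
      linear_combination h2
    have h3 : (s.den : ℚ) ≠ 0 := by exact_mod_cast s.den_nz
    conv_lhs => rw [← Rat.num_div_den s]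
    rw [div_pow, div_eq_iff (pow_ne_zero _ h3), h1]
  have hfin : ({p : ℕ | p ∣ n * s.den * D.natAbs} : Set ℕ).Finite := by
    refine Set.Finite.subset (Set.finite_Iic (n * s.den * D.natAbs)) fun p hp => ?_
    exact Nat.le_of_dvd (Nat.pos_of_ne_zero (mul_ne_zero (mul_ne_zero hn.ne_zero s.den_nz)
      (Int.natAbs_ne_zero.2 hD0))) hp
  refine (hinf.diff hfin).mono ?_
  rintro p ⟨⟨hp, hpa⟩, hpn⟩
  have hpn' : ¬ p ∣ n * s.den * D.natAbs := hpn
  refine ⟨⟨hp, ?_, ?_, ?_⟩, ?_, ?_⟩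
  · rintro rfl
    exact hpn' (Dvd.intro _ (by ring : p * (s.den * D.natAbs) = p * s.den * D.natAbs))
  · intro h
    exact hpn' ((h.mul_left n).mul_right _)
  · intro h
    exact hpn' ((Int.natCast_dvd.1 h).mul_left _)
  · exact (Nat.ModEq.of_mul_left n hpa).trans ha2
  · have h1 : p ≡ a [MOD n] := Nat.ModEq.of_mul_right M hpa
    have h2 : (p : ZMod n) = (g : ZMod n) := by
      rw [(ZMod.natCast_eq_natCast_iff _ _ n).2 (h1.trans ha1), ZMod.natCast_zmod_val]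
    rw [h2, hgo]

end Pool.Agent.LibTE76
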