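import Pool.Agent.LibDC76.Defs

set_option autoImplicit false

namespace Pool.Agent.LibTE76

open Module Polynomial Pool.Agent.LibDC76

section Linear

variable {K V : Type} [Field K] [AddCommGroup V] [Module K V]

/-- If all polynomials `P` with `P(F) π = 0` vanish at `μ`, there is a nonzero `A` in `π End(V) π` with
`F A = A F = μ A`. -/
theorem exists_eigenmap [FiniteDimensional K V] (F π : End K V) (hFπ : Commute F π) (hπ : π * π = π) (μ : K)
    (h : ∀ P : K[X], aeval F P * π = 0 → P.eval μ = 0) :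
    ∃ A : End K V, A ≠ 0 ∧ π * A = A ∧ A * π = A ∧ F * A = μ • A ∧ A * F = μ • A := by
  classical
  obtain ⟨Q, hQ1, hQ2⟩ := exists_eq_pow_rootMultiplicity_mul_and_not_dvd F.charpoly
    (LinearMap.charpoly_monic F).ne_zero μ
  have hex : ∃ j : ℕ, aeval F ((X - C μ) ^ j * Q) * π = 0 :=
    ⟨_, by rw [← hQ1, LinearMap.aeval_self_charpoly, zero_mul]⟩
  have hcomm : ∀ P : K[X], Commute (aeval F P) π := by
    intro P
    rw [aeval_eq_sum_range]
    exact Commute.sum_left _ _ _ fun i _ => (hFπ.pow_left i).smul_left _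
  have hcommF : ∀ P : K[X], Commute (aeval F P) F := by
    intro P
    rw [aeval_eq_sum_range]
    exact Commute.sum_left _ _ _ fun i _ => ((Commute.refl F).pow_left i).smul_left _
  set j := Nat.find hex with hj
  have hj1 : aeval F ((X - C μ) ^ j * Q) * π = 0 := Nat.find_spec hex
  have hj0 : j ≠ 0 := by
    intro h0
    rw [h0, pow_zero, one_mul] at hj1
    exact hQ2 (dvd_iff_isRoot.2 (h Q hj1))
  obtain ⟨i, hi⟩ := Nat.exists_eq_succ_of_ne_zero hj0
  have hAne : aeval F ((X - C μ) ^ i * Q) * π ≠ 0 := Nat.find_min hex (by omega)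
  set A := aeval F ((X - C μ) ^ i * Q) * π with hA
  have h1 : (F - algebraMap K (End K V) μ) * A = 0 := by
    have h2 : (F - algebraMap K (End K V) μ) = aeval F (X - C μ) := by simp
    rw [h2, hA, ← mul_assoc, ← map_mul, ← mul_assoc, ← pow_succ']
    rw [hi] at hj1
    exact hj1
  have h3 : F * A = μ • A := by
    have h4 : F * A - algebraMap K (End K V) μ * A = 0 := by rw [← sub_mul]; exact h1
    rw [sub_eq_zero.1 h4, Algebra.smul_def]
  have h5 : A * F = F * A := by
    rw [hA, mul_assoc, ← hFπ.eq, ← mul_assoc, (hcommF _).eq, mul_assoc]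
  refine ⟨A, hAne, ?_, ?_, h3, h5.trans h3⟩
  · rw [hA, ← mul_assoc, ← (hcomm _).eq, mul_assoc, hπ]
  · rw [hA, mul_assoc, hπ]

/-- Step A. -/
theorem exists_poly_of_separated [IsAlgClosed K] [FiniteDimensional K V] (F e π : End K V) (he : e * e = e)
    (hπ : π * π = π) (heπ : e * π = π) (hπe : π * e = π) (hFe : Commute F e) (hFπ : Commute F π)
    (hX : ∀ X : End K V, π * X = X → X * (e - π) = X → F * X = X * F → X = 0) :
    ∃ P : K[X], π = aeval F P * e := by
  classical
  set π' := e - π with hπ'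
  have hπ'2 : π' * π' = π' := by
    rw [hπ', mul_sub, sub_mul, sub_mul, he, hπe, heπ, hπ, sub_self, sub_zero]
  have hFπ' : Commute F π' := hFe.sub_right hFπ
  let I₁ : Ideal K[X] :=
    { carrier := {P | aeval F P * π = 0}
      add_mem' := by
        intro a b ha hb
        change aeval F (a + b) * π = 0
        rw [map_add, add_mul, show aeval F a * π = 0 from ha, show aeval F b * π = 0 from hb, add_zero]
      zero_mem' := by
        change aeval F (0 : K[X]) * π = 0
        rw [map_zero, zero_mul]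
      smul_mem' := by
        intro a b hb
        change aeval F (a * b) * π = 0
        rw [map_mul, mul_assoc, show aeval F b * π = 0 from hb, mul_zero] }
  let I₂ : Ideal K[X] :=
    { carrier := {P | aeval F P * π' = 0}
      add_mem' := by
        intro a b ha hb
        change aeval F (a + b) * π' = 0
        rw [map_add, add_mul, show aeval F a * π' = 0 from ha, show aeval F b * π' = 0 from hb, add_zero]
      zero_mem' := by
        change aeval F (0 : K[X]) * π' = 0
        rw [map_zero, zero_mul]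
      smul_mem' := by
        intro a b hb
        change aeval F (a * b) * π' = 0
        rw [map_mul, mul_assoc, show aeval F b * π' = 0 from hb, mul_zero] }
  have hI₁ : ∀ P, P ∈ I₁ ↔ aeval F P * π = 0 := fun P => Iff.rfl
  have hI₂ : ∀ P, P ∈ I₂ ↔ aeval F P * π' = 0 := fun P => Iff.rfl
  by_cases htop : I₁ ⊔ I₂ = ⊤
  · have h1 : (1 : K[X]) ∈ I₁ ⊔ I₂ := htop ▸ Submodule.mem_top
    obtain ⟨P₁, hP₁, P₂, hP₂, h12⟩ := Submodule.mem_sup.1 h1
    refine ⟨P₂, ?_⟩
    have h2 : aeval F P₂ * e = aeval F P₂ * π + aeval F P₂ * π' := by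
      rw [← mul_add, hπ', add_sub_cancel]
    have h3 : aeval F P₂ * π = π := by
      have h4 : P₂ = 1 - P₁ := by rw [← h12]; ring
      rw [h4, map_sub, map_one, sub_mul, one_mul, (hI₁ _).1 hP₁, sub_zero]
    rw [h2, h3, (hI₂ _).1 hP₂, add_zero]
  · exfalso
    obtain ⟨m, hm, hle⟩ := Ideal.exists_le_maximal _ htop
    -- the maximal ideal is generated by `X - μ`
    obtain ⟨μ, hμ⟩ : ∃ μ : K, ∀ P ∈ m, P.eval μ = 0 := by
      obtain ⟨q, hq⟩ := (IsPrincipalIdealRing.principal m).principal
      have hq' : m = Ideal.span {q} := hq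
      have hdeg : q.degree ≠ 0 := by
        intro hd
        apply hm.ne_top
        rw [hq', Ideal.span_singleton_eq_top, Polynomial.isUnit_iff_degree_eq_zero]
        exact hd
      obtain ⟨μ, hμ⟩ := IsAlgClosed.exists_root q hdeg
      refine ⟨μ, fun P hP => ?_⟩
      rw [hq', Ideal.mem_span_singleton] at hP
      obtain ⟨r, rfl⟩ := hP
      rw [eval_mul, show q.eval μ = 0 from hμ, zero_mul]
    obtain ⟨A₁, h1ne, h1a, h1b, h1c, h1d⟩ := exists_eigenmap F π hFπ hπ μ
      (fun P hP => hμ P (hle (Ideal.mem_sup_left ((hI₁ P).2 hP))))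
    obtain ⟨A₂, h2ne, h2a, h2b, h2c, h2d⟩ := exists_eigenmap F π' hFπ' hπ'2 μ
      (fun P hP => hμ P (hle (Ideal.mem_sup_right ((hI₂ P).2 hP))))
    obtain ⟨v, hv⟩ : ∃ v, A₁ v ≠ 0 := by
      by_contra hcon
      push Not at hcon
      exact h1ne (LinearMap.ext hcon)
    obtain ⟨w, hw⟩ : ∃ w, A₂ w ≠ 0 := by
      by_contra hcon
      push Not at hcon
      exact h2ne (LinearMap.ext hcon)
    obtain ⟨φ, hφ⟩ : ∃ φ : Dual K V, φ (A₂ w) ≠ 0 := by
      by_contra hcon
      push Not at hcon
      exact hw ((Module.forall_dual_apply_eq_zero_iff K _).1 hcon)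
    let Y : End K V := φ.smulRight v
    have hXne : A₁ * Y * A₂ ≠ 0 := by
      intro h0
      have h1 := LinearMap.congr_fun h0 w
      have h2 : (A₁ * Y * A₂) w = φ (A₂ w) • A₁ v := by
        simp [Y, Module.End.mul_apply]
      rw [h2, LinearMap.zero_apply] at h1
      rcases smul_eq_zero.1 h1 with h | h
      · exact hφ h
      · exact hv h
    refine hXne (hX _ ?_ ?_ ?_)
    · rw [← mul_assoc, ← mul_assoc, h1a]
    · rw [mul_assoc, h2b]
    · rw [← mul_assoc, ← mul_assoc, h1c, mul_assoc (A₁ * Y), h2d, Algebra.mul_smul_comm, Algebra.smul_mul_assoc,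
        Algebra.smul_mul_assoc]

/-- Step B. -/
theorem no_intertwiner [IsAlgClosed K] [FiniteDimensional K V] (F e π : End K V) (he : e * e = e)
    (hπ : π * π = π) (heπ : e * π = π) (hπe : π * e = π) (hFe : Commute F e) (hFπ : Commute F π)
    (hsep : ∀ (μ : K) (u w : V), π u = u → e w = w → π w = 0 → F u = μ • u → F w = μ • w →
      u = 0 ∨ w = 0)
    (X : End K V) (h1 : π * X = X) (h2 : X * (e - π) = X) (h3 : F * X = X * F) : X = 0 := by
  classical
  by_contra hne
  -- an eigenvector of `F` in the range of `X`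
  set R := LinearMap.range X with hR
  have hFR : ∀ u ∈ R, F u ∈ R := by
    rintro _ ⟨v, rfl⟩
    exact ⟨F v, (LinearMap.congr_fun h3 v).symm⟩
  have : Nontrivial R := by
    obtain ⟨v, hv⟩ : ∃ v, X v ≠ 0 := by
      by_contra hcon
      push Not at hcon
      exact hne (LinearMap.ext hcon)
    exact ⟨⟨⟨X v, v, rfl⟩, 0, fun h => hv (congrArg Subtype.val h)⟩⟩
  obtain ⟨μ, hμ⟩ := Module.End.exists_eigenvalue (F.restrict hFR)
  obtain ⟨u, hu⟩ := hμ.exists_hasEigenvector
  have hu1 : F (u : V) = μ • (u : V) := congrArg Subtype.val hu.apply_eq_smul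
  have hu0 : (u : V) ≠ 0 := fun h => hu.2 (Subtype.ext h)
  have hπu : π (u : V) = u := by
    obtain ⟨v, hv⟩ := u.2
    rw [← hv]
    exact LinearMap.congr_fun h1 v
  -- `F - μ` is injective on the range of `e - π`
  set W := LinearMap.range (e - π) with hW
  have hWπ : ∀ w ∈ W, e w = w ∧ π w = 0 := by
    rintro _ ⟨v, rfl⟩
    constructor
    · have := LinearMap.congr_fun (show e * (e - π) = e - π by rw [mul_sub, he, heπ]) v
      exact this
    · have := LinearMap.congr_fun (show π * (e - π) = 0 by rw [mul_sub, hπe, hπ, sub_self]) v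
      exact this
  have hGW : ∀ w ∈ W, (F - μ • (1 : End K V)) w ∈ W := by
    rintro _ ⟨v, rfl⟩
    refine ⟨(F - μ • (1 : End K V)) v, ?_⟩
    have h4 : Commute (F - μ • (1 : End K V)) (e - π) :=
      (hFe.sub_right hFπ).sub_left ((Commute.one_left _).smul_left _)
    exact LinearMap.congr_fun h4.eq.symm v
  let T : End K W := (F - μ • (1 : End K V)).restrict hGW
  have hTinj : Function.Injective T := by
    rw [injective_iff_map_eq_zero]
    intro w hw
    have h4 : F (w : V) = μ • (w : V) := by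
      have := congrArg Subtype.val hw
      have h5 : F (w : V) - μ • (w : V) = 0 := this
      exact sub_eq_zero.1 h5
    rcases hsep μ u w hπu (hWπ w w.2).1 (hWπ w w.2).2 hu1 h4 with h | h
    · exact absurd h hu0
    · exact Subtype.ext h
  have hTsurj : Function.Surjective T := LinearMap.injective_iff_surjective.1 hTinj
  -- so `F - μ` is surjective on `R`
  have hGR : ∀ u ∈ R, (F - μ • (1 : End K V)) u ∈ R := by
    intro u hu
    exact sub_mem (hFR u hu) (R.smul_mem _ hu)
  let T' : End K R := (F - μ • (1 : End K V)).restrict hGR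
  have hT'surj : Function.Surjective T' := by
    rintro ⟨_, v, rfl⟩
    obtain ⟨w, hw⟩ := hTsurj ⟨(e - π) v, v, rfl⟩
    refine ⟨⟨X w, w, rfl⟩, Subtype.ext ?_⟩
    have h5 : (F - μ • (1 : End K V)) (w : V) = (e - π) v := congrArg Subtype.val hw
    change (F - μ • (1 : End K V)) (X w) = X v
    have h6 : (F - μ • (1 : End K V)) * X = X * (F - μ • (1 : End K V)) := by
      rw [sub_mul, mul_sub, h3]; simp
    have h7 : (F - μ • (1 : End K V)) (X w) = X ((F - μ • (1 : End K V)) w) :=
      LinearMap.congr_fun h6 _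
    rw [h7, h5]
    exact LinearMap.congr_fun h2 v
  have hT'inj : Function.Injective T' := LinearMap.injective_iff_surjective.2 hT'surj
  apply hu0
  have h8 : T' u = 0 := by
    apply Subtype.ext
    change F (u : V) - μ • (u : V) = 0
    rw [hu1, sub_self]
  exact congrArg Subtype.val (hT'inj (h8.trans (map_zero T').symm))

end Linear

section Top

variable {K V G S : Type} [Field K] [TopologicalSpace K] [IsTopologicalRing K] [T1Space K] [AddCommGroup V]
    [Module K V] [FiniteDimensional K V] [Group G] [TopologicalSpace G]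

omit [T1Space K] in
theorem continuous_functional (R : Reductions K V G S) (Φ : Dual K (End K V)) :
    Continuous fun h => Φ (R.ρ h) := by
  classical
  let b := finBasis K V
  have h0 : ∀ h, R.ρ h = ∑ i, ∑ j, b.coord i (R.ρ h (b j)) • b.end (i, j) := by
    intro h
    refine b.ext fun k => ?_
    simp only [LinearMap.sum_apply, LinearMap.smul_apply, Basis.end_apply_apply, smul_ite, smul_zero,
      Finset.sum_ite_eq', Finset.mem_univ, if_true]
    exact (b.sum_repr _).symm
  have h1 : (fun h => Φ (R.ρ h)) = fun h => ∑ i, ∑ j, b.coord i (R.ρ h (b j)) * Φ (b.end (i, j)) := by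
    funext h
    conv_lhs => rw [h0 h]
    rw [map_sum]
    refine Finset.sum_congr rfl fun i _ => ?_
    rw [map_sum]
    refine Finset.sum_congr rfl fun j _ => ?_
    rw [map_smul, smul_eq_mul]
  rw [h1]
  refine continuous_finsetSum _ fun i _ => continuous_finsetSum _ fun j _ =>
    Continuous.mul (R.cont _ _) continuous_const

/-- Step C. -/
theorem exists_open_of_no_intertwiner (R : Reductions K V G S) (π π' : End K V) (hπ : π * π = π)
    (hπ' : π' * π' = π') (g : G) (hg1 : Commute (R.ρ g) π) (hg2 : Commute (R.ρ g) π')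
    (hX : ∀ X : End K V, π * X = X → X * π' = X → R.ρ g * X = X * R.ρ g → X = 0) :
    ∃ O : Set G, IsOpen O ∧ g ∈ O ∧ ∀ h ∈ O,
      ∀ X : End K V, π * X = X → X * π' = X → R.ρ h * X = X * R.ρ h → X = 0 := by
  classical
  -- the linear map `T_h`
  let T : G → End K (End K V) := fun h =>
    (LinearMap.mulLeft K π ∘ₗ LinearMap.mulRight K π') ∘ₗ
      (LinearMap.mulLeft K (R.ρ h) - LinearMap.mulRight K (R.ρ h)) +
    (LinearMap.id - LinearMap.mulLeft K π ∘ₗ LinearMap.mulRight K π')
  have hT : ∀ h X, T h X = π * ((R.ρ h * X - X * R.ρ h) * π') + (X - π * (X * π')) := by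
    intro h X; rfl
  have hcont : Continuous fun h => LinearMap.det (T h) := by
    let B := finBasis K (End K V)
    have h1 : (fun h => LinearMap.det (T h)) = fun h => (LinearMap.toMatrix B B (T h)).det := by
      funext h
      rw [LinearMap.det_toMatrix]
    rw [h1]
    refine Continuous.matrix_det ?_
    refine continuous_pi fun i => continuous_pi fun j => ?_
    have h2 : (fun h => LinearMap.toMatrix B B (T h) i j) = fun h =>
        (((B.coord i) ∘ₗ (LinearMap.mulLeft K π ∘ₗ LinearMap.mulRight K π')) ∘ₗ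
          (LinearMap.mulRight K (B j) - LinearMap.mulLeft K (B j))) (R.ρ h) +
          B.coord i (B j - π * (B j * π')) := by
      funext h
      rw [LinearMap.toMatrix_apply, hT, map_add, Finsupp.add_apply]
      rfl
    rw [h2]
    exact (continuous_functional R _).add continuous_const
  have hiff : ∀ h, LinearMap.det (T h) ≠ 0 →
      ∀ X : End K V, π * X = X → X * π' = X → R.ρ h * X = X * R.ρ h → X = 0 := by
    intro h hdet X h1 h2 h3
    have h4 : T h X = 0 := by
      rw [hT, h2, h1, h3, sub_self, sub_self, zero_mul, mul_zero, add_zero]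
    have h5 : IsUnit (T h) := (LinearMap.isUnit_iff_isUnit_det _).2 (isUnit_iff_ne_zero.2 hdet)
    have h6 : Function.Injective (T h) := ((Module.End.isUnit_iff _).1 h5).1
    exact h6 (h4.trans (map_zero _).symm)
  have hdetg : LinearMap.det (T g) ≠ 0 := by
    have hinj : Function.Injective (T g) := by
      rw [injective_iff_map_eq_zero]
      intro X hX0
      rw [hT] at hX0
      have e1 : π * (X - π * (X * π')) * π' = 0 := by
        rw [mul_sub, sub_mul, ← mul_assoc, hπ, mul_assoc π (X * π') π', mul_assoc X π' π', hπ', mul_assoc, sub_self]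
      have e2 : π * (π * ((R.ρ g * X - X * R.ρ g) * π')) * π' = π * ((R.ρ g * X - X * R.ρ g) * π') := by
        rw [← mul_assoc, hπ, mul_assoc, mul_assoc, hπ']
      have e3 : π * ((R.ρ g * X - X * R.ρ g) * π') = 0 := by
        have h1 := congrArg (fun Z => π * Z * π') hX0
        simp only [mul_zero, zero_mul] at h1
        rw [mul_add, add_mul, e1, add_zero, e2] at h1
        exact h1
      rw [e3, zero_add, sub_eq_zero] at hX0
      have h1 : π * X = X := by
        rw [hX0, ← mul_assoc, hπ]
      have h2 : X * π' = X := by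
        conv_rhs => rw [hX0]
        conv_lhs => rw [hX0]
        rw [mul_assoc, mul_assoc, hπ']
      apply hX X h1 h2
      have h3 : π * ((R.ρ g * X - X * R.ρ g) * π') = R.ρ g * X - X * R.ρ g := by
        rw [sub_mul, mul_assoc (R.ρ g), h2, mul_assoc X, hg2.eq, ← mul_assoc X, h2, mul_sub, ← mul_assoc,
          ← hg1.eq, mul_assoc, h1, ← mul_assoc, h1]
      rw [h3] at e3
      exact sub_eq_zero.1 e3
    have h5 : IsUnit (T g) := (Module.End.isUnit_iff _).2
      ⟨hinj, LinearMap.injective_iff_surjective.1 hinj⟩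
    exact ((LinearMap.isUnit_iff_isUnit_det _).1 h5).ne_zero
  refine ⟨{h | LinearMap.det (T h) ≠ 0}, isOpen_compl_singleton.preimage hcont, hdetg, ?_⟩
  intro h hh
  exact hiff h hh

/-- Tate projectors separated by one element of the Galois group become algebraic at the places whose Frobenius is
close to it. -/
theorem near_projector [IsAlgClosed K] [IsTopologicalGroup G] (R : Reductions K V G S) (e π : End K V)
    (he0 : e ∈ R.corr₀) (he : e * e = e) (hπ : π * π = π) (heπ : e * π = π) (hπe : π * e = π)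
    (N : Subgroup G) (hN : IsOpen (N : Set G)) (hNπ : ∀ h ∈ N, R.ρ h * π = π * R.ρ h)
    (g : G) (hg : g ∈ N) (hge : R.ρ g * e = e * R.ρ g)
    (hsep : ∀ (μ : K) (u w : V), π u = u → e w = w → π w = 0 → R.ρ g u = μ • u → R.ρ g w = μ • w →
      u = 0 ∨ w = 0) :
    ∃ O : Set G, IsOpen O ∧ g ∈ O ∧ (∃ s, R.frob s ∈ O) ∧ ∀ s, R.frob s ∈ O → π ∈ R.corr s := by
  obtain ⟨Ne, hNe, hNeo, hNe'⟩ := R.defined e he0
  have hgπ : Commute (R.ρ g) π := hNπ g hg
  have hge' : Commute (R.ρ g) e := hge
  have hπ'2 : (e - π) * (e - π) = e - π := by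
    rw [mul_sub, sub_mul, sub_mul, he, hπe, heπ, hπ, sub_self, sub_zero]
  obtain ⟨O, hO, hgO, h⟩ := exists_open_of_no_intertwiner R π (e - π) hπ hπ'2 g hgπ (hge'.sub_right hgπ)
    (no_intertwiner (R.ρ g) e π he hπ heπ hπe hge' hgπ hsep)
  have hO1 : IsOpen ((fun x => g⁻¹ * x) ⁻¹' (Ne : Set G)) := hNeo.preimage (continuous_const_mul _)
  have hO' : IsOpen (O ∩ ((N : Set G) ∩ (fun x => g⁻¹ * x) ⁻¹' (Ne : Set G))) := hO.inter (hN.inter hO1)
  have hgO' : g ∈ O ∩ ((N : Set G) ∩ (fun x => g⁻¹ * x) ⁻¹' (Ne : Set G)) :=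
    ⟨hgO, hg, by simp [Ne.one_mem]⟩
  refine ⟨_, hO', hgO', ?_, ?_⟩
  · obtain ⟨x, hx, s, rfl⟩ := R.dense.inter_open_nonempty _ hO' ⟨g, hgO'⟩
    exact ⟨s, hx⟩
  · rintro s ⟨hs1, hs2, hs3⟩
    have hFπ : Commute (R.ρ (R.frob s)) π := hNπ _ hs2
    have hFe : Commute (R.ρ (R.frob s)) e := by
      have h1 : R.frob s = g * (g⁻¹ * R.frob s) := by group
      rw [h1, map_mul]
      exact Commute.mul_left hge' (hNe' _ hs3)
    obtain ⟨P, hP⟩ := exists_poly_of_separated (R.ρ (R.frob s)) e π he hπ heπ hπe hFe hFπ (h _ hs1)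
    rw [hP]
    refine mul_mem ?_ (R.spec s he0)
    rw [aeval_eq_sum_range]
    exact sum_mem fun i _ => (R.corr s).smul_mem (pow_mem (R.graph s) i) _

end Top

end Pool.Agent.LibTE76
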